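import Pool.Agent.N40.TC.PB
import Pool.Agent.N615.TC.UN

/-!
# The trace of the derivative is at most `-1`
-/

set_option autoImplicit false

namespace Pool.Agent.N130.TC

open Pool.Agent.N569.TC Pool.Agent.N40.TC Finset

section su

variable {m : ℕ} {j : ℤ}

theorem P0_append (A B : List It) :
    (P0 (A ++ B) : Matrix (VV m j) (VV m j) ℤ) = P0 A * P0 B := by
  unfold P0
  rw [List.map_append, List.prod_append]

theorem P0_consM (x : It) (A : List It) :
    (P0 (x :: A) : Matrix (VV m j) (VV m j) ℤ) = M0 x * P0 A := by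
  unfold P0
  rw [List.map_cons, List.prod_cons]

theorem P0_nilM : (P0 [] : Matrix (VV m j) (VV m j) ℤ) = 1 := rfl

theorem P1_append (A B : List It) :
    (P1 (A ++ B) : Matrix (VV m j) (VV m j) ℤ) = P1 A * P0 B + P0 A * P1 B := by
  induction A with
  | nil =>
    rw [List.nil_append, P0_nilM, one_mul]
    simp [P1]
  | cons x A ih =>
    rw [List.cons_append, P1, P1, ih, P0_append, P0_consM]
    noncomm_ring

theorem trace_rot (A B : List It) :
    Matrix.trace (P1 (A ++ B) : Matrix (VV m j) (VV m j) ℤ) =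
      Matrix.trace (P1 (B ++ A) : Matrix (VV m j) (VV m j) ℤ) := by
  rw [P1_append, P1_append, Matrix.trace_add, Matrix.trace_add, Matrix.trace_mul_comm (P1 A),
    Matrix.trace_mul_comm (P0 A), add_comm]

/-- one term of the derivative -/
noncomputable def tm (m : ℕ) (j : ℤ) (x : It) (X : List It) : ℤ :=
  Matrix.trace ((M1 x : Matrix (VV m j) (VV m j) ℤ) * P0 X)

theorem T_cons (A X : List It) (x : It) :
    Matrix.trace ((P0 A : Matrix (VV m j) (VV m j) ℤ) * P1 (x :: X)) =
      tm m j x (X ++ A) + Matrix.trace ((P0 (A ++ [x]) : Matrix (VV m j) (VV m j) ℤ) * P1 X) := by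
  rw [P1, mul_add, Matrix.trace_add, Matrix.trace_mul_comm, mul_assoc, ← P0_append, P0_append A [x],
    P0_consM, P0_nilM, mul_one, mul_assoc]
  rfl

/-! ### the terms -/

theorem tm_col (x : It) (X : List It) :
    tm m j x X = ∑ s : VV m j, ∑ t : VV m j, M1 x t s * P0 X s t := by
  unfold tm Matrix.trace
  rw [Finset.sum_comm]
  refine Finset.sum_congr rfl fun s _ => ?_
  rw [Matrix.diag_apply, Matrix.mul_apply]

theorem tm_row (x : It) (X : List It) :
    tm m j x X = ∑ s : VV m j, ∑ t : VV m j, M1 x s t * P0 X t s := by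
  unfold tm Matrix.trace
  refine Finset.sum_congr rfl fun s _ => ?_
  rw [Matrix.diag_apply, Matrix.mul_apply]

theorem P0_dd (X : List It) (s : VV m j) : P0 X s s = 0 ∨ P0 X s s = 1 := by
  rw [P0_diag']
  split_ifs <;> simp

theorem P0_dd1 (X : List It) (s : VV m j) (h : ∀ x ∈ X, x.OK s.1) : P0 X s s = 1 := by
  rw [P0_diag', if_pos h]

theorem fl_peak {i : ℕ} (hi : i + 1 < m) {s t : Fin m → Fin 2} (ht : t = fl i s) (hp : Pk i s) :
    s = fl i t ∧ Vl i t ∧ Hh t (i+1) = Hh s (i+2) - 1 := by
  have h0 : s = fl i t := by rw [ht, fl_fl]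
  have h1 := Hh_fl s hi
  have h2 := Hh_fl_ne s (i := i) (j := i) (by omega)
  have h3 := Hh_fl_ne s (i := i) (j := i + 2) (by omega)
  rw [← ht] at h1 h2 h3
  have h4 := Hh_step s (i := i) (by omega)
  have h5 := Hh_step s (i := i + 1) hi
  rw [show i + 1 + 1 = i + 2 from rfl] at h5
  obtain ⟨h6, h7⟩ := hp
  refine ⟨h0, ?_, by omega⟩
  unfold Vl
  omega

/-- the column of a peak of a positive letter -/
theorem col_peak (i : ℕ) (hi : i + 1 < m) (X : List It) (s t : VV m j) (hp : Pk i s.1)
    (ht : t.1 = fl i s.1) :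
    ∑ r : VV m j, M1 (It.letter true i) r s * P0 X s r = - P0 X s s + P0 X s t := by
  obtain ⟨h0, h1, h2⟩ := fl_peak hi ht hp
  have hne : s ≠ t := ne_of_valley hi h1 h0
  have h3 : 1 ≤ Hh s.1 (i+2) := by
    have := t.2.1 (i+1)
    omega
  rw [Fintype.sum_eq_add s t hne]
  · have e1 : M1 (It.letter true i) s s = -1 := by
      unfold M1
      rw [Matrix.of_apply]
      simp only [if_true]
      rw [if_neg (fun h => h.2 ⟨hp, h3⟩)]
    have e2 : M1 (It.letter true i) t s = 1 := by
      simp only [M1, Matrix.of_apply]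
      rw [if_neg (Ne.symm hne), if_pos ⟨hp, ht⟩]
    rw [e1, e2]
    ring
  · intro r hr
    have e3 : M1 (It.letter true i) r s = 0 := by
      simp only [M1, Matrix.of_apply]
      rw [if_neg hr.1, if_neg (fun h => hr.2 (Subtype.ext (h.2.trans ht.symm)))]
    rw [e3, zero_mul]

theorem col_le (c : ℕ) (hc : c < 2) (i : ℕ) (hi : i + 1 < m) (hic : i % 2 = c) (X : List It)
    (hA : Alt m c X) (s : VV m j) :
    ∑ r : VV m j, M1 (It.letter true i) r s * P0 X s r ≤ 0 := by
  by_cases h : ∃ t : VV m j, t.1 = fl i s.1 ∧ Pk i s.1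
  · obtain ⟨t, ht, hp⟩ := h
    rw [col_peak i hi X s t hp ht]
    obtain ⟨h0, h1, h2⟩ := fl_peak hi ht hp
    obtain ⟨h3, h4, -⟩ := pair_pos c hc X hA i hi hic t s h1 h0
    by_cases hO : ∀ x ∈ X, x.OK s.1
    · rw [P0_dd1 X s hO]
      omega
    · push Not at hO
      rw [h4 hO]
      rcases P0_dd X s with h5 | h5 <;> omega
  · rw [Fintype.sum_eq_single s]
    · have e1 : M1 (It.letter true i) s s = 0 ∨ M1 (It.letter true i) s s = -1 := by
        unfold M1
        rw [Matrix.of_apply]
        simp only [if_true]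
        split_ifs <;> simp
      rcases e1 with e1 | e1 <;> rcases P0_dd X s with h5 | h5 <;> rw [e1, h5] <;> norm_num
    · intro r hr
      have e3 : M1 (It.letter true i) r s = 0 := by
        simp only [M1, Matrix.of_apply]
        rw [if_neg hr, if_neg (fun h' => h ⟨r, h'.2, h'.1⟩)]
      rw [e3, zero_mul]

/-- the row of a valley of a negative letter -/
theorem row_valley (i : ℕ) (hi : i + 1 < m) (X : List It) (s t : VV m j) (hv : Vl i s.1)
    (ht : t.1 = fl i s.1) :
    ∑ r : VV m j, M1 (It.letter false i) s r * P0 X r s = - P0 X s s - P0 X t s := by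
  have hne : t ≠ s := ne_of_valley hi hv ht
  have hpk := (valley_fl hi ht hv).2
  have h0 : s.1 = fl i t.1 := by rw [ht, fl_fl]
  rw [Fintype.sum_eq_add s t hne.symm]
  · have e1 : M1 (It.letter false i) s s = -1 := by
      unfold M1
      rw [Matrix.of_apply]
      simp only [if_true]
      rw [if_pos (Or.inl hv)]
    have e2 : M1 (It.letter false i) s t = -1 := by
      simp only [M1, Matrix.of_apply]
      rw [if_neg (Ne.symm hne), if_pos ⟨hpk, h0⟩]
    rw [e1, e2]
    ring
  · intro r hr
    have e3 : M1 (It.letter false i) s r = 0 := by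
      simp only [M1, Matrix.of_apply]
      rw [if_neg (Ne.symm hr.1), if_neg]
      rintro ⟨h1, h2⟩
      apply hr.2
      apply Subtype.ext
      rw [ht, h2, fl_fl]
    rw [e3, zero_mul]

theorem row_le (c : ℕ) (hc : c < 2) (i : ℕ) (hi : i + 1 < m) (hic : i % 2 ≠ c) (X : List It)
    (hA : Alt m c X) (s : VV m j) :
    ∑ r : VV m j, M1 (It.letter false i) s r * P0 X r s ≤ 0 := by
  by_cases h : ∃ t : VV m j, t.1 = fl i s.1 ∧ Vl i s.1
  · obtain ⟨t, ht, hv⟩ := h
    rw [row_valley i hi X s t hv ht]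
    obtain ⟨h3, h4, -⟩ := pair_neg c hc X hA i hi hic s t hv ht
    by_cases hO : ∀ x ∈ X, x.OK s.1
    · rw [P0_dd1 X s hO]
      omega
    · push Not at hO
      rw [h4 hO]
      rcases P0_dd X s with h5 | h5 <;> omega
  · rw [Fintype.sum_eq_single s]
    · have e1 : M1 (It.letter false i) s s = 0 ∨ M1 (It.letter false i) s s = -1 := by
        unfold M1
        rw [Matrix.of_apply]
        simp only [if_true]
        split_ifs <;> simp
      rcases e1 with e1 | e1 <;> rcases P0_dd X s with h5 | h5 <;> rw [e1, h5] <;> norm_num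
    · intro r hr
      have e3 : M1 (It.letter false i) s r = 0 := by
        simp only [M1, Matrix.of_apply]
        rw [if_neg (Ne.symm hr), if_neg]
        rintro ⟨h1, h2⟩
        apply h
        obtain ⟨h3, h4, -⟩ := fl_peak hi h2 h1
        exact ⟨r, h3, h4⟩
      rw [e3, zero_mul]

theorem tm_le (c : ℕ) (hc : c < 2) (L : List It) (hA : Alt m c L) (x : It) (hx : x ∈ L)
    (X : List It) (hX : ∀ z ∈ X, z ∈ L) : tm m j x X ≤ 0 := by
  have hAX : Alt m c X := fun z hz => hA z (hX z hz)
  cases x with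
  | letter b i =>
    have h1 : i + 1 < m ∧ (b = true ↔ i % 2 = c) := hA _ hx
    cases b with
    | true =>
      rw [tm_col]
      exact Finset.sum_nonpos fun s _ => col_le c hc i h1.1 (h1.2.1 rfl) X hAX s
    | false =>
      rw [tm_row]
      exact Finset.sum_nonpos fun s _ => row_le c hc i h1.1
        (fun h => absurd (h1.2.2 h) (by decide)) X hAX s
  | twist n a =>
    have h0 : (M1 (It.twist n a) : Matrix (VV m j) (VV m j) ℤ) = 0 := by
      ext t s
      simp [M1]
    unfold tm
    rw [h0, zero_mul, Matrix.trace_zero]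

theorem T_le (c : ℕ) (hc : c < 2) (L : List It) (hA : Alt m c L) : ∀ (X A : List It),
    (∀ z ∈ X, z ∈ L) → (∀ z ∈ A, z ∈ L) →
    Matrix.trace ((P0 A : Matrix (VV m j) (VV m j) ℤ) * P1 X) ≤ 0
  | [], A, _, _ => by simp [P1]
  | (x :: X), A, hX, hA' => by
    have hx : x ∈ L := hX x List.mem_cons_self
    have hX' : ∀ z ∈ X, z ∈ L := fun z hz => hX z (List.mem_cons_of_mem _ hz)
    rw [T_cons]
    have h1 := tm_le (j := j) c hc L hA x hx (X ++ A) (by
      intro z hz
      rcases List.mem_append.1 hz with h | h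
      · exact hX' z h
      · exact hA' z h)
    have h2 := T_le c hc L hA X (A ++ [x]) hX' (by
      intro z hz
      rcases List.mem_append.1 hz with h | h
      · exact hA' z h
      · rw [List.mem_singleton.1 h]; exact hx)
    linarith

theorem T_le_tm (c : ℕ) (hc : c < 2) (L : List It) (hA : Alt m c L) (x : It) (X2 : List It)
    (hx : x ∈ L) (hX2 : ∀ z ∈ X2, z ∈ L) : ∀ (X1 A : List It),
    (∀ z ∈ X1, z ∈ L) → (∀ z ∈ A, z ∈ L) →
    Matrix.trace ((P0 A : Matrix (VV m j) (VV m j) ℤ) * P1 (X1 ++ x :: X2)) ≤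
      tm m j x (X2 ++ (A ++ X1))
  | [], A, _, hA' => by
    rw [List.nil_append, T_cons, List.append_nil]
    have h2 := T_le (j := j) c hc L hA X2 (A ++ [x]) hX2 (by
      intro z hz
      rcases List.mem_append.1 hz with h | h
      · exact hA' z h
      · rw [List.mem_singleton.1 h]; exact hx)
    linarith
  | (y :: X1), A, hX1, hA' => by
    have hy : y ∈ L := hX1 y List.mem_cons_self
    have hX1' : ∀ z ∈ X1, z ∈ L := fun z hz => hX1 z (List.mem_cons_of_mem _ hz)
    rw [List.cons_append, T_cons]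
    have h1 := tm_le (j := j) c hc L hA y hy ((X1 ++ x :: X2) ++ A) (by
      intro z hz
      rcases List.mem_append.1 hz with h | h
      · rcases List.mem_append.1 h with h | h
        · exact hX1' z h
        · rcases List.mem_cons.1 h with h | h
          · rw [h]; exact hx
          · exact hX2 z h
      · exact hA' z h)
    have h2 := T_le_tm c hc L hA x X2 hx hX2 X1 (A ++ [y]) hX1' (by
      intro z hz
      rcases List.mem_append.1 hz with h | h
      · exact hA' z h
      · rw [List.mem_singleton.1 h]; exact hy)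
    have e : X2 ++ (A ++ [y] ++ X1) = X2 ++ (A ++ y :: X1) := by simp
    rw [e] at h2
    linarith

theorem last_occ {α : Type*} {x : α} {R : List α} (h : x ∈ R) :
    ∃ R1 R2, R = R1 ++ x :: R2 ∧ x ∉ R2 := by
  obtain ⟨as, bs, h1, h2⟩ := List.eq_append_cons_of_mem (List.mem_reverse.2 h)
  refine ⟨bs.reverse, as.reverse, ?_, fun h3 => h2 (List.mem_reverse.1 h3)⟩
  have h3 := congrArg List.reverse h1
  rw [List.reverse_reverse] at h3
  rw [h3]
  simp

end su

/-- the trace of the derivative -/
theorem P1_trace {m : ℕ} (c : ℕ) (hc : c < 2) (hm : 3 ≤ m) (L : List It) (hA : Alt m c L)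
    (hF : Full m L) :
    Matrix.trace (P1 L : Matrix (VV m ((m : ℤ) % 2)) (VV m ((m : ℤ) % 2)) ℤ) ≤ -1 := by
  obtain ⟨s0, t0, hOK, ht0, hpos, hneg⟩ := Pool.Agent.N615.TC.OK_exists c hc hm L hA
  obtain ⟨by', hy⟩ := hF (m-2) (by omega)
  obtain ⟨bx, hx⟩ := hF (m-3) (by omega)
  have hyA : m - 2 + 1 < m ∧ (by' = true ↔ (m - 2) % 2 = c) := hA _ hy
  have hxA : m - 3 + 1 < m ∧ (bx = true ↔ (m - 3) % 2 = c) := hA _ hx
  obtain ⟨La, Lb, hL⟩ := List.append_of_mem hy
  have hxy : It.letter bx (m-3) ≠ It.letter by' (m-2) := by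
    intro h
    simp only [It.letter.injEq] at h
    omega
  have hxR : It.letter bx (m-3) ∈ Lb ++ La := by
    rw [hL] at hx
    rcases List.mem_append.1 hx with h | h
    · exact List.mem_append.2 (Or.inr h)
    · rcases List.mem_cons.1 h with h | h
      · exact absurd h hxy
      · exact List.mem_append.2 (Or.inl h)
  have hRL : ∀ z ∈ Lb ++ La, z ∈ L := by
    intro z hz
    rw [hL]
    rcases List.mem_append.1 hz with h | h
    · exact List.mem_append.2 (Or.inr (List.mem_cons_of_mem _ h))
    · exact List.mem_append.2 (Or.inl h)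
  have htr : Matrix.trace (P1 L : Matrix (VV m ((m : ℤ) % 2)) (VV m ((m : ℤ) % 2)) ℤ) =
      Matrix.trace (P1 (It.letter by' (m-2) :: (Lb ++ La)) :
        Matrix (VV m ((m : ℤ) % 2)) (VV m ((m : ℤ) % 2)) ℤ) := by
    rw [hL, trace_rot, List.cons_append]
  rw [htr]
  have hst0 : s0.1 = fl (m-3) t0.1 := by rw [ht0, fl_fl]
  -- the general bound
  have hgen : ∀ R1 R2 : List It, Lb ++ La = R1 ++ It.letter bx (m-3) :: R2 →
      Matrix.trace (P1 (It.letter by' (m-2) :: (Lb ++ La)) :
        Matrix (VV m ((m : ℤ) % 2)) (VV m ((m : ℤ) % 2)) ℤ) ≤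
        tm m ((m : ℤ) % 2) (It.letter bx (m-3)) (R2 ++ It.letter by' (m-2) :: R1) ∧
      (∀ z ∈ R2 ++ It.letter by' (m-2) :: R1, z ∈ L) := by
    intro R1 R2 hR
    have hR1 : ∀ z ∈ R1, z ∈ L := fun z hz => hRL z (by rw [hR]; exact List.mem_append.2 (Or.inl hz))
    have hR2 : ∀ z ∈ R2, z ∈ L := fun z hz => hRL z (by
      rw [hR]; exact List.mem_append.2 (Or.inr (List.mem_cons_of_mem _ hz)))
    constructor
    · have h1 := T_le_tm (j := (m : ℤ) % 2) c hc L hA (It.letter bx (m-3)) R2 hx hR2
        (It.letter by' (m-2) :: R1) [] (by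
          intro z hz
          rcases List.mem_cons.1 hz with h | h
          · rw [h]; exact hy
          · exact hR1 z h) (by simp)
      rw [P0_nilM, one_mul, List.nil_append, List.cons_append, ← hR] at h1
      exact h1
    · intro z hz
      rcases List.mem_append.1 hz with h | h
      · exact hR2 z h
      · rcases List.mem_cons.1 h with h | h
        · rw [h]; exact hy
        · exact hR1 z h
  by_cases hg : (m - 3) % 2 = c
  · obtain ⟨p1, p2, p3, p4⟩ := hpos hg
    have hbx : bx = true := hxA.2.2 hg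
    have hby : by' = false := by
      have : by' ≠ true := fun h => by
        have := hyA.2.1 h
        omega
      simpa using this
    subst hbx
    subst hby
    obtain ⟨R1, R2, hR, hx1⟩ := List.eq_append_cons_of_mem hxR
    obtain ⟨g1, g2⟩ := hgen R1 R2 hR
    refine g1.trans ?_
    have hAX : Alt m c (R2 ++ It.letter false (m-2) :: R1) := fun z hz => hA z (g2 z hz)
    have hz := (pair_pos c hc (R2 ++ It.letter false (m-2) :: R1) hAX (m-3) (by omega) hg t0 s0 p2
      hst0).2.2 R2 R1 false true (m-2) rfl (by omega) hx1 rfl (by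
        intro h
        have h' : ¬ Pk (m-2) t0.1 := h
        exact h' p4)
    rw [tm_col, ← Finset.add_sum_erase _ _ (Finset.mem_univ s0), col_peak (m-3) (by omega) _ s0 t0 p1 ht0,
      hz, P0_dd1 _ s0 (fun z hz' => hOK z (g2 z hz'))]
    have h2 : ∑ s ∈ Finset.univ.erase s0, ∑ t : VV m ((m : ℤ) % 2), M1 (It.letter true (m-3)) t s *
        P0 (R2 ++ It.letter false (m-2) :: R1) s t ≤ 0 :=
      Finset.sum_nonpos fun s _ => col_le c hc (m-3) (by omega) hg _ hAX s
    linarith
  · obtain ⟨p1, p2, p3, p4⟩ := hneg hg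
    have hbx : bx = false := by
      have : bx ≠ true := fun h => hg (hxA.2.1 h)
      simpa using this
    have hby : by' = true := hyA.2.2 (by omega)
    subst hbx
    subst hby
    obtain ⟨R1, R2, hR, hx1⟩ := last_occ hxR
    obtain ⟨g1, g2⟩ := hgen R1 R2 hR
    refine g1.trans ?_
    have hAX : Alt m c (R2 ++ It.letter true (m-2) :: R1) := fun z hz => hA z (g2 z hz)
    have hz := (pair_neg c hc (R2 ++ It.letter true (m-2) :: R1) hAX (m-3) (by omega) hg s0 t0 p1
      ht0).2.2 R2 R1 true false (m-2) rfl (by omega) hx1 rfl (by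
        intro h
        have h' : Pk (m-2) t0.1 := h
        exact p4 h')
    rw [tm_row, ← Finset.add_sum_erase _ _ (Finset.mem_univ s0), row_valley (m-3) (by omega) _ s0 t0 p1 ht0,
      hz, P0_dd1 _ s0 (fun z hz' => hOK z (g2 z hz'))]
    have h2 : ∑ s ∈ Finset.univ.erase s0, ∑ t : VV m ((m : ℤ) % 2), M1 (It.letter false (m-3)) s t *
        P0 (R2 ++ It.letter true (m-2) :: R1) t s ≤ 0 :=
      Finset.sum_nonpos fun s _ => row_le c hc (m-3) (by omega) hg _ hAX s
    linarith

end Pool.Agent.N130.TC
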