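import Pool.Agent.N569.TC.Defs
import Pool.Agent.TH561.PB.Mat2

/-!
# The Markov property of the trace functional of the path representation

`tau_lam`: the value of `tau` on a word in the Temperley–Lieb generators is `N ^ (number of closed curves)`.
-/

set_option autoImplicit false

namespace Pool.Agent.N130.TC

open Pool.Agent.N569.TC Pool.Agent.H891R2.Jones Pool.Agent.TH561 Finset

section tr

variable {m : ℕ}

/-- the path does not go below `0` at the places `≥ i` -/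
def Va (i : ℕ) (s : Fin m → Fin 2) : Prop := ∀ l, i ≤ l → 0 ≤ Hh s l

theorem Va_zero (s : Fin m → Fin 2) : Va 0 s ↔ Vd s :=
  ⟨fun h l => h l (Nat.zero_le l), fun h l _ => h l⟩

theorem Va_succ (i : ℕ) (s : Fin m → Fin 2) : Va i s ↔ 0 ≤ Hh s i ∧ Va (i+1) s := by
  constructor
  · intro h
    exact ⟨h i le_rfl, fun l hl => h l (by omega)⟩
  · rintro ⟨h1, h2⟩ l hl
    rcases Nat.lt_or_ge i l with h | h
    · exact h2 l h
    · have : l = i := by omega
      rw [this]; exact h1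

theorem Hh_permAt (j : Fin m) (σ : Equiv.Perm (Fin 2)) (s : Fin m → Fin 2) {l : ℕ} (hl : (j : ℕ) < l) :
    Hh (permAt j σ s) l = Hh s l := by
  unfold Hh
  refine Finset.sum_congr rfl fun k _ => ?_
  by_cases hk : l ≤ (k : ℕ)
  · rw [if_pos hk, if_pos hk, permAt_other j σ s (by rintro rfl; omega)]
  · rw [if_neg hk, if_neg hk]

theorem Va_permAt (j : Fin m) (σ : Equiv.Perm (Fin 2)) (s : Fin m → Fin 2) {l : ℕ} (hl : (j : ℕ) < l) :
    Va l (permAt j σ s) ↔ Va l s := by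
  unfold Va
  constructor
  · intro h k hk
    rw [← Hh_permAt j σ s (by omega : (j : ℕ) < k)]
    exact h k hk
  · intro h k hk
    rw [Hh_permAt j σ s (by omega : (j : ℕ) < k)]
    exact h k hk

theorem st_swap (b : Fin 2) : st (Equiv.swap 0 1 b) = - st b := by
  revert b; decide

/-- the change of the step `j` -/
def sw (j : Fin m) : Equiv.Perm (Fin m → Fin 2) := permAt j (Equiv.swap 0 1)

theorem Hh_sw (i : ℕ) (hi : i < m) (s : Fin m → Fin 2) :
    Hh (sw ⟨i, hi⟩ s) i = Hh s (i+1) - (Hh s i - Hh s (i+1)) := by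
  have h1 := Hh_lt (sw ⟨i, hi⟩ s) hi
  have h2 := Hh_lt s hi
  have h3 : Hh (sw ⟨i, hi⟩ s) (i+1) = Hh s (i+1) :=
    Hh_permAt _ _ _ (Nat.lt_succ_self i)
  have h4 : st (sw ⟨i, hi⟩ s ⟨i, hi⟩) = - st (s ⟨i, hi⟩) := by
    unfold sw
    rw [permAt_self, st_swap]
  rw [h1, h3, h4, h2]
  ring

open Classical in
/-- the weight at the place `i` -/
noncomputable def om (N : ℕ) (i : ℕ) (s : Fin m → Fin 2) : ℂ := if Va i s then De N (Hh s i) else 0

theorem om_eq (N : ℕ) (i : ℕ) (s : Fin m → Fin 2) (h : Va (i+1) s) : om N i s = De N (Hh s i) := by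
  unfold om
  by_cases h0 : 0 ≤ Hh s i
  · rw [if_pos ((Va_succ i s).2 ⟨h0, h⟩)]
  · rw [if_neg (fun h' => h0 ((Va_succ i s).1 h').1), De_neg N (by omega)]

theorem om_zero' (N : ℕ) (i : ℕ) (s : Fin m → Fin 2) (h : ¬ Va (i+1) s) : om N i s = 0 := by
  unfold om
  rw [if_neg (fun h' => h ((Va_succ i s).1 h').2)]

theorem om_add (N : ℕ) (i : ℕ) (hi : i < m) (s : Fin m → Fin 2) :
    om N i s + om N i (sw ⟨i, hi⟩ s) = N * om N (i+1) s := by
  have hva : Va (i+1) (sw ⟨i, hi⟩ s) ↔ Va (i+1) s := Va_permAt _ _ _ (Nat.lt_succ_self i)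
  by_cases h : Va (i+1) s
  · rw [om_eq N i s h, om_eq N i _ (hva.2 h), Hh_sw]
    have h3 : om N (i+1) s = De N (Hh s (i+1)) := by
      unfold om; rw [if_pos h]
    rw [h3, ← De_rec N (h (i+1) le_rfl)]
    rcases Hh_step s hi with h1 | h1
    · rw [h1]
      congr 2
      ring
    · rw [h1, add_comm (De N (Hh s (i+1) - 1))]
      congr 2
      ring
  · rw [om_zero' N i s h, om_zero' N i _ (fun h' => h (hva.1 h'))]
    unfold om
    rw [if_neg h]
    ring

theorem sum_om (N : ℕ) (i : ℕ) (hi : i < m) (G : (Fin m → Fin 2) → ℂ)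
    (hG : ∀ s, G (sw ⟨i, hi⟩ s) = G s) :
    2 * ∑ s, om N i s * G s = N * ∑ s, om N (i+1) s * G s := by
  have h1 : ∑ s, om N i s * G s = ∑ s, om N i (sw ⟨i, hi⟩ s) * G s := by
    rw [← Equiv.sum_comp (sw ⟨i, hi⟩) (fun s => om N i s * G s)]
    exact Finset.sum_congr rfl fun s _ => by rw [hG]
  have h2 : 2 * ∑ s, om N i s * G s = ∑ s, om N i s * G s + ∑ s, om N i (sw ⟨i, hi⟩ s) * G s := by
    rw [← h1]; ring
  rw [h2, ← Finset.sum_add_distrib, Finset.mul_sum]
  refine Finset.sum_congr rfl fun s _ => ?_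
  rw [← add_mul, om_add, mul_assoc]

theorem sum_om_iter (N : ℕ) (G : (Fin m → Fin 2) → ℂ) : ∀ i, i ≤ m →
    (∀ j (hj : j < m), j < i → ∀ s, G (sw ⟨j, hj⟩ s) = G s) →
    2 ^ i * ∑ s, om N 0 s * G s = (N : ℂ) ^ i * ∑ s, om N i s * G s
  | 0, _, _ => by simp
  | (i+1), hi, hG => by
    have h1 := sum_om_iter N G i (by omega) (fun j hj h => hG j hj (by omega))
    have h2 := sum_om N i (by omega) G (hG i (by omega) (by omega))
    calc 2 ^ (i+1) * ∑ s, om N 0 s * G s = 2 * (2 ^ i * ∑ s, om N 0 s * G s) := by ring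
      _ = (N : ℂ) ^ i * (2 * ∑ s, om N i s * G s) := by rw [h1]; ring
      _ = _ := by rw [h2]; ring

/-- the steps `i` and `i + 1` are different -/
def Mx (i : ℕ) (s : Fin m → Fin 2) : Prop := Hh s i = Hh s (i+2)

open Classical in
/-- half of the paths are mixed -/
theorem sum_mixed (k : ℕ) (hk : k + 1 < m) (G : (Fin m → Fin 2) → ℂ)
    (hG : ∀ s, G (sw ⟨k, Nat.lt_of_succ_lt hk⟩ s) = G s) :
    2 * ∑ s, (if Mx k s then G s else 0) = ∑ s, G s := by
  have hk' : k < m := Nat.lt_of_succ_lt hk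
  have h1 : ∑ s, (if Mx k s then G s else 0) =
      ∑ s, (if Mx k (sw ⟨k, hk'⟩ s) then G s else 0) := by
    rw [← Equiv.sum_comp (sw ⟨k, hk'⟩) (fun s => if Mx k s then G s else 0)]
    exact Finset.sum_congr rfl fun s _ => by simp only [hG]
  have h2 : 2 * ∑ s, (if Mx k s then G s else 0) =
      ∑ s, (if Mx k s then G s else 0) + ∑ s, (if Mx k (sw ⟨k, hk'⟩ s) then G s else 0) := by
    rw [← h1]; ring
  rw [h2, ← Finset.sum_add_distrib]
  refine Finset.sum_congr rfl fun s _ => ?_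
  have h3 : Mx k (sw ⟨k, hk'⟩ s) ↔ ¬ Mx k s := by
    unfold Mx
    rw [Hh_sw]
    have h4 : Hh (sw ⟨k, hk'⟩ s) (k+2) = Hh s (k+2) :=
      Hh_permAt _ _ _ (show k < k + 2 by omega)
    rw [h4]
    have h5 := Hh_step s hk'
    have h6 := Hh_step s hk
    rw [show k + 1 + 1 = k + 2 from rfl] at h6
    omega
  by_cases h : Mx k s
  · rw [if_pos h, if_neg (fun h' => (h3.1 h') h), add_zero]
  · rw [if_neg h, if_pos (h3.2 h), zero_add]

/-! ### the matrices without validity at the places `< i` -/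

open Classical in
/-- the validity -/
noncomputable def PV (m : ℕ) : Matrix (Fin m → Fin 2) (Fin m → Fin 2) ℂ :=
  Matrix.diagonal fun s => if Vd s then 1 else 0

open Classical in
/-- the matrix of the generator, where validity is only required at the places `≥ i` -/
noncomputable def JV (m N : ℕ) (i : ℕ) : Matrix (Fin m → Fin 2) (Fin m → Fin 2) ℂ :=
  Matrix.of fun t s => if i + 1 < m ∧ Va i t ∧ Va i s ∧ Hh s i = Hh s (i+2) ∧ (t = s ∨ t = fl i s) then
    De N (Hh t (i+1)) / De N (Hh s (i+2)) else 0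

theorem Hh_of_or {i : ℕ} {t s : Fin m → Fin 2} (h : t = s ∨ t = fl i s) {j : ℕ} (hj : j ≠ i + 1) :
    Hh t j = Hh s j := by
  rcases h with rfl | rfl
  · rfl
  · exact Hh_fl_ne s hj

theorem Vd_iff {i : ℕ} {t s : Fin m → Fin 2} (h : t = s ∨ t = fl i s) (ht : Va i t) (hs : Va i s) :
    Vd t ↔ Vd s := by
  have key : ∀ {t s : Fin m → Fin 2}, (∀ j, j ≠ i + 1 → Hh t j = Hh s j) → Va i s → Vd t → Vd s := by
    intro t s h1 h2 h3 j
    rcases Nat.lt_or_ge j i with h | h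
    · rw [← h1 j (by omega)]; exact h3 j
    · exact h2 j h
  exact ⟨key (fun j hj => Hh_of_or h hj) hs, key (fun j hj => (Hh_of_or h hj).symm) ht⟩

theorem PV_JV (N i : ℕ) : PV m * JV m N i = JJ m N i := by
  ext t s
  unfold PV
  rw [Matrix.diagonal_mul]
  unfold JV JJ
  simp only [Matrix.of_apply]
  by_cases h : i + 1 < m ∧ Va i t ∧ Va i s ∧ Hh s i = Hh s (i+2) ∧ (t = s ∨ t = fl i s)
  · rw [if_pos h]
    obtain ⟨h1, h2, h3, h4, h5⟩ := h
    by_cases ht : Vd t
    · rw [if_pos ht, one_mul, if_pos ⟨h1, ht, (Vd_iff h5 h2 h3).1 ht, h4, h5⟩]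
    · rw [if_neg ht, zero_mul, if_neg (fun h' => ht h'.2.1)]
  · rw [if_neg h, mul_zero, if_neg]
    rintro ⟨h1, h2, h3, h4, h5⟩
    exact h ⟨h1, fun l _ => h2 l, fun l _ => h3 l, h4, h5⟩

theorem JV_PV (N i : ℕ) : JV m N i * PV m = JJ m N i := by
  ext t s
  unfold PV
  rw [Matrix.mul_diagonal]
  unfold JV JJ
  simp only [Matrix.of_apply]
  by_cases h : i + 1 < m ∧ Va i t ∧ Va i s ∧ Hh s i = Hh s (i+2) ∧ (t = s ∨ t = fl i s)
  · rw [if_pos h]
    obtain ⟨h1, h2, h3, h4, h5⟩ := h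
    by_cases ht : Vd s
    · rw [if_pos ht, mul_one, if_pos ⟨h1, (Vd_iff h5 h2 h3).2 ht, ht, h4, h5⟩]
    · rw [if_neg ht, mul_zero, if_neg (fun h' => ht h'.2.2.1)]
  · rw [if_neg h, zero_mul, if_neg]
    rintro ⟨h1, h2, h3, h4, h5⟩
    exact h ⟨h1, fun l _ => h2 l, fun l _ => h3 l, h4, h5⟩

theorem PV_PV : PV m * PV m = PV m := by
  unfold PV
  rw [Matrix.diagonal_mul_diagonal]
  congr 1
  funext s
  split_ifs <;> simp

theorem PV_JJ (N i : ℕ) : PV m * JJ m N i = JJ m N i := by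
  rw [← PV_JV, ← mul_assoc, PV_PV]

theorem fl_permAt (i : ℕ) (j : Fin m) (σ : Equiv.Perm (Fin 2)) (s : Fin m → Fin 2) (h1 : (j : ℕ) ≠ i)
    (h2 : (j : ℕ) ≠ i + 1) : fl i (permAt j σ s) = permAt j σ (fl i s) := by
  unfold fl
  split_ifs with h
  · funext k
    simp only [Function.comp_apply]
    by_cases hk : k = j
    · subst hk
      have h3 : Equiv.swap (⟨i, Nat.lt_of_succ_lt h⟩ : Fin m) ⟨i+1, h⟩ k = k := by
        apply Equiv.swap_apply_of_ne_of_ne
        · intro h'; exact h1 (congrArg Fin.val h')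
        · intro h'; exact h2 (congrArg Fin.val h')
      rw [h3, permAt_self, permAt_self, Function.comp_apply, h3]
    · rw [permAt_other j σ _ hk, permAt_other, Function.comp_apply]
      intro h'
      apply hk
      have h3 : Equiv.swap (⟨i, Nat.lt_of_succ_lt h⟩ : Fin m) ⟨i+1, h⟩ j = j := by
        apply Equiv.swap_apply_of_ne_of_ne
        · intro h'; exact h1 (congrArg Fin.val h')
        · intro h'; exact h2 (congrArg Fin.val h')
      rw [← h3] at h'
      exact (Equiv.injective _) h'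
  · rfl

theorem JV_loc (N i : ℕ) (j : Fin m) (hj : (j : ℕ) < i) : JV m N i ∈ Loc 2 j := by
  refine ⟨fun x y hxy => ?_, fun σ x y => ?_⟩
  · unfold JV
    simp only [Matrix.of_apply]
    rw [if_neg]
    rintro ⟨h1, h2, h3, h4, h5⟩
    apply hxy
    rcases h5 with rfl | rfl
    · rfl
    · rw [fl_other y j (by omega) (by omega)]
  · unfold JV
    simp only [Matrix.of_apply]
    have a1 := Va_permAt j σ x hj
    have a2 := Va_permAt j σ y hj
    have a3 : (permAt j σ x = permAt j σ y ∨ permAt j σ x = fl i (permAt j σ y)) ↔ (x = y ∨ x = fl i y) := by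
      rw [fl_permAt i j σ y (by omega) (by omega), (permAt j σ).injective.eq_iff,
        (permAt j σ).injective.eq_iff]
    rw [Hh_permAt j σ y hj, Hh_permAt j σ y (by omega : (j : ℕ) < i+2),
      Hh_permAt j σ x (by omega : (j : ℕ) < i+1)]
    by_cases h : i + 1 < m ∧ Va i x ∧ Va i y ∧ Hh y i = Hh y (i+2) ∧ (x = y ∨ x = fl i y)
    · rw [if_pos h, if_pos ⟨h.1, a1.2 h.2.1, a2.2 h.2.2.1, h.2.2.2.1, a3.2 h.2.2.2.2⟩]
    · rw [if_neg h, if_neg (fun h' => h ⟨h'.1, a1.1 h'.2.1, a2.1 h'.2.2.1, h'.2.2.2.1, a3.1 h'.2.2.2.2⟩)]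

/-! ### the functional -/

/-- the functional as a linear map -/
noncomputable def tauL (m N : ℕ) : Matrix (Fin m → Fin 2) (Fin m → Fin 2) ℂ →ₗ[ℂ] ℂ where
  toFun X := ∑ s : Fin m → Fin 2, om N 0 s * X s s
  map_add' X Y := by
    rw [← Finset.sum_add_distrib]
    refine Finset.sum_congr rfl fun s _ => ?_
    rw [Matrix.add_apply, mul_add]
  map_smul' c X := by
    rw [RingHom.id_apply, smul_eq_mul, Finset.mul_sum]
    refine Finset.sum_congr rfl fun s _ => ?_
    rw [Matrix.smul_apply, smul_eq_mul]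
    ring

theorem tauL_apply (N : ℕ) (X : Matrix (Fin m → Fin 2) (Fin m → Fin 2) ℂ) :
    tauL m N X = ∑ s : Fin m → Fin 2, om N 0 s * X s s := rfl

theorem tau_eq (N : ℕ) (X : Matrix (Fin m → Fin 2) (Fin m → Fin 2) ℂ) : tau m N X = tauL m N X := by
  unfold tau
  rw [tauL_apply]
  refine Finset.sum_congr rfl fun s _ => ?_
  unfold om
  by_cases h : Vd s
  · rw [if_pos h, if_pos ((Va_zero s).2 h)]
  · rw [if_neg h, if_neg (fun h' => h ((Va_zero s).1 h')), zero_mul]

theorem om_PV (N : ℕ) (X : Matrix (Fin m → Fin 2) (Fin m → Fin 2) ℂ) (s : Fin m → Fin 2) :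
    om N 0 s * (PV m * X) s s = om N 0 s * X s s := by
  unfold PV
  rw [Matrix.diagonal_mul]
  by_cases h : Vd s
  · rw [if_pos h, one_mul]
  · unfold om
    rw [if_neg (fun h' => h ((Va_zero s).1 h')), zero_mul, zero_mul]

theorem tauL_PV (N : ℕ) (X : Matrix (Fin m → Fin 2) (Fin m → Fin 2) ℂ) :
    tauL m N (PV m * X) = tauL m N X := by
  rw [tauL_apply, tauL_apply]
  exact Finset.sum_congr rfl fun s _ => om_PV N X s

theorem tauL_one (N : ℕ) : tauL m N 1 = (N : ℂ) ^ m := by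
  have h1 := sum_om_iter (m := m) N (fun _ => 1) m le_rfl (fun _ _ _ _ => rfl)
  have h2 : ∑ s : Fin m → Fin 2, om N m s * 1 = (2 : ℂ) ^ m := by
    have h3 : ∀ s : Fin m → Fin 2, om N m s * 1 = 1 := by
      intro s
      unfold om
      have hv : Va m s := fun l hl => by rw [Hh_ge s hl]
      rw [if_pos hv, Hh_ge s le_rfl, De_zero, mul_one]
    rw [Finset.sum_congr rfl fun s _ => h3 s]
    simp
  have h4 : tauL m N 1 = ∑ s : Fin m → Fin 2, om N 0 s * 1 := by
    rw [tauL_apply]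
    refine Finset.sum_congr rfl fun s _ => ?_
    rw [Matrix.one_apply_eq]
  rw [h2, ← h4] at h1
  have h5 : (2 : ℂ) ^ m ≠ 0 := pow_ne_zero _ two_ne_zero
  apply mul_left_cancel₀ h5
  rw [h1]
  ring

open Classical in
/-- the Markov property -/
theorem markovP (N : ℕ) (hN : 3 ≤ N) (k : ℕ) (hk : k + 1 < m)
    (Y : Matrix (Fin m → Fin 2) (Fin m → Fin 2) ℂ) (hY : ∀ j : Fin m, (j : ℕ) ≤ k → Y ∈ Loc 2 j) :
    (N : ℂ) * tauL m N (Y * JJ m N k) = tauL m N Y := by
  have hk' : k < m := Nat.lt_of_succ_lt hk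
  -- the weight
  set g : (Fin m → Fin 2) → ℂ := fun s => if Mx k s then
    (De N (Hh s (k+1)) / De N (Hh s (k+2))) * Y s s else 0 with hg
  have hYd : ∀ (j : Fin m), (j : ℕ) ≤ k → ∀ s, Y (sw j s) (sw j s) = Y s s := by
    intro j hj s
    exact (hY j hj).2 _ s s
  have e1 : tauL m N (Y * JJ m N k) = ∑ s, om N 0 s * g s := by
    rw [tauL_apply]
    refine Finset.sum_congr rfl fun s _ => ?_
    by_cases hs : Vd s
    · congr 1
      rw [Matrix.mul_apply, Finset.sum_eq_single s]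
      · rw [hg]
        simp only
        have hJ : JJ m N k s s = if Mx k s then De N (Hh s (k+1)) / De N (Hh s (k+2)) else 0 := by
          unfold JJ Mx
          rw [Matrix.of_apply]
          by_cases h : Hh s k = Hh s (k+2)
          · rw [if_pos h, if_pos ⟨hk, hs, hs, h, Or.inl rfl⟩]
          · rw [if_neg h, if_neg (fun h' => h h'.2.2.2.1)]
        rw [hJ]
        by_cases h : Mx k s
        · rw [if_pos h, if_pos h]
          ring
        · rw [if_neg h, if_neg h, mul_zero]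
      · intro t _ hts
        by_cases h : t ⟨k, hk'⟩ = s ⟨k, hk'⟩
        · unfold JJ
          simp only [Matrix.of_apply]
          rw [if_neg, mul_zero]
          rintro ⟨h1, h2, h3, h4, h5⟩
          rcases h5 with h5 | h5
          · exact hts h5
          · rw [h5, fl_left s hk] at h
            exact (mixed_iff s hk).1 h4 h.symm
        · rw [(hY ⟨k, hk'⟩ le_rfl).1 s t (fun h' => h h'.symm), zero_mul]
      · intro h; exact absurd (Finset.mem_univ _) h
    · unfold om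
      rw [if_neg (fun h' => hs ((Va_zero s).1 h')), zero_mul, zero_mul]
  have hginv : ∀ j (hj : j < m), j < k → ∀ s, g (sw ⟨j, hj⟩ s) = g s := by
    intro j hj hjk s
    rw [hg]
    simp only
    unfold Mx
    rw [hYd ⟨j, hj⟩ (show j ≤ k by omega)]
    have h1 : ∀ l, j < l → Hh (sw ⟨j, hj⟩ s) l = Hh s l := fun l hl => Hh_permAt _ _ _ hl
    rw [h1 k hjk, h1 (k+1) (by omega), h1 (k+2) (by omega)]
  have e2 := sum_om_iter N g k (by omega) hginv
  -- the sum at the place k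
  have e3 : 2 * ∑ s, om N k s * g s = ∑ s, om N (k+1) s * Y s s := by
    rw [← sum_mixed k hk (fun s => om N (k+1) s * Y s s)]
    · congr 1
      refine Finset.sum_congr rfl fun s _ => ?_
      rw [hg]
      simp only
      by_cases h : Mx k s
      · rw [if_pos h, if_pos h]
        by_cases hv : Va (k+1) s
        · rw [om_eq N k s hv]
          have h6 : om N (k+1) s = De N (Hh s (k+1)) := by
            unfold om; rw [if_pos hv]
          rw [h6]
          have h7 : Hh s k = Hh s (k+2) := h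
          rw [h7]
          have h8 := De_ne hN (hv (k+2) (by omega))
          field_simp
        · rw [om_zero' N k s hv]
          unfold om
          rw [if_neg hv]
          ring
      · rw [if_neg h, if_neg h, mul_zero]
    · intro s
      have h0 := hYd ⟨k, hk'⟩ (show k ≤ k by omega) s
      have h1 : Hh (sw ⟨k, hk'⟩ s) (k+1) = Hh s (k+1) := Hh_permAt _ _ _ (show k < k + 1 by omega)
      have h2 : Va (k+1) (sw ⟨k, hk'⟩ s) ↔ Va (k+1) s := Va_permAt _ _ _ (show k < k + 1 by omega)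
      have h3 : om N (k+1) (sw ⟨k, hk'⟩ s) = om N (k+1) s := by
        unfold om
        rw [h1]
        by_cases hv : Va (k+1) s
        · rw [if_pos hv, if_pos (h2.2 hv)]
        · rw [if_neg hv, if_neg (fun h' => hv (h2.1 h'))]
      show om N (k+1) (sw ⟨k, hk'⟩ s) * Y (sw ⟨k, hk'⟩ s) (sw ⟨k, hk'⟩ s) = om N (k+1) s * Y s s
      rw [h0, h3]
  have e4 := sum_om_iter N (fun s => Y s s) (k+1) (by omega) (fun j hj hjk s => hYd ⟨j, hj⟩
    (show j ≤ k by omega) s)
  have h5 : (2 : ℂ) ^ (k+1) ≠ 0 := pow_ne_zero _ two_ne_zero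
  apply mul_left_cancel₀ h5
  rw [e1, tauL_apply]
  calc (2 : ℂ) ^ (k+1) * (N * ∑ s, om N 0 s * g s) = 2 * N * (2 ^ k * ∑ s, om N 0 s * g s) := by ring
    _ = N ^ (k+1) * (2 * ∑ s, om N k s * g s) := by rw [e2]; ring
    _ = _ := by rw [e3, e4]

/-! ### the centralizer -/

/-- the diagonal matrix of the weights -/
noncomputable def DD (m N : ℕ) : Matrix (Fin m → Fin 2) (Fin m → Fin 2) ℂ := Matrix.diagonal (om N 0)

theorem tauL_DD (N : ℕ) (X : Matrix (Fin m → Fin 2) (Fin m → Fin 2) ℂ) :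
    tauL m N X = Matrix.trace (DD m N * X) := by
  rw [tauL_apply]
  unfold Matrix.trace DD
  refine Finset.sum_congr rfl fun s _ => ?_
  rw [Matrix.diag_apply, Matrix.diagonal_mul]

/-- the matrices which commute with the diagonal matrix of the weights -/
noncomputable abbrev CC (m N : ℕ) : Subalgebra ℂ (Matrix (Fin m → Fin 2) (Fin m → Fin 2) ℂ) :=
  Subalgebra.centralizer ℂ {DD m N}

theorem JJ_mem (N i : ℕ) : JJ m N i ∈ CC m N := by
  rw [Subalgebra.mem_centralizer_iff]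
  intro D hD
  rw [Set.mem_singleton_iff] at hD
  subst hD
  ext t s
  unfold DD
  rw [Matrix.diagonal_mul, Matrix.mul_diagonal]
  unfold JJ
  simp only [Matrix.of_apply]
  by_cases h : i + 1 < m ∧ Vd t ∧ Vd s ∧ Hh s i = Hh s (i+2) ∧ (t = s ∨ t = fl i s)
  · rw [if_pos h]
    obtain ⟨h1, h2, h3, h4, h5⟩ := h
    have h6 : om N 0 t = om N 0 s := by
      unfold om
      rw [if_pos ((Va_zero t).2 h2), if_pos ((Va_zero s).2 h3), Hh_of_or h5 (by omega : 0 ≠ i + 1)]
    rw [h6, mul_comm]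
  · rw [if_neg h, mul_zero, zero_mul]

theorem tauL_cyc (N : ℕ) (x y : CC m N) : tauL m N (x.1 * y.1) = tauL m N (y.1 * x.1) := by
  have hy := (Subalgebra.mem_centralizer_iff ℂ).1 y.2 (DD m N) rfl
  rw [tauL_DD, tauL_DD, ← mul_assoc, Matrix.trace_mul_comm, ← mul_assoc, ← hy, mul_assoc]

/-- the pair of the generators -/
noncomputable def EP (m N : ℕ) (i : ℕ) :
    Matrix (Fin m → Fin N) (Fin m → Fin N) ℂ × CC m N := (KK m N i, ⟨JJ m N i, JJ_mem N i⟩)

theorem isTL_EP (N : ℕ) (hTL : IsTL m (N : ℂ) (JJ m N)) : IsTL m (N : ℂ) (EP m N) where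
  sq i hi := Prod.ext ((isTL_KK m N).sq i hi) (Subtype.ext (hTL.sq i hi))
  up i hi := Prod.ext ((isTL_KK m N).up i hi) (Subtype.ext (hTL.up i hi))
  down i hi := Prod.ext ((isTL_KK m N).down i hi) (Subtype.ext (hTL.down i hi))
  far i j hj hij := Prod.ext ((isTL_KK m N).far i j hj hij) (Subtype.ext (hTL.far i j hj hij))

/-- the two functionals -/
noncomputable def TF (m N : ℕ) (b : Bool) :
    (Matrix (Fin m → Fin N) (Fin m → Fin N) ℂ × CC m N) →ₗ[ℂ] ℂ :=
  if b then (Matrix.traceLinearMap _ ℂ ℂ).comp (LinearMap.fst ℂ _ _) else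
    ((tauL m N).comp (CC m N).val.toLinearMap).comp (LinearMap.snd ℂ _ _)

theorem TF_true (N : ℕ) (x : Matrix (Fin m → Fin N) (Fin m → Fin N) ℂ × CC m N) :
    TF m N true x = Matrix.trace x.1 := by
  unfold TF; rw [if_pos rfl]; rfl

theorem TF_false (N : ℕ) (x : Matrix (Fin m → Fin N) (Fin m → Fin N) ℂ × CC m N) :
    TF m N false x = tauL m N x.2.1 := by
  unfold TF; rw [if_neg (by decide)]; rfl

theorem WP_EP_fst (N : ℕ) (L : List ℕ) : (WP (EP m N) L).1 = WP (KK m N) L := by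
  induction L with
  | nil => rfl
  | cons i L ih => rw [WP_cons, WP_cons, ← ih]; rfl

theorem WP_EP_snd (N : ℕ) (L : List ℕ) : ((WP (EP m N) L).2 : Matrix _ _ ℂ) = WP (JJ m N) L := by
  induction L with
  | nil => rfl
  | cons i L ih => rw [WP_cons, WP_cons, ← ih]; rfl

/-- the subalgebra generated by the generators `> k` -/
noncomputable def SK (m N : ℕ) (k : ℕ) : Subalgebra ℂ (Matrix (Fin m → Fin N) (Fin m → Fin N) ℂ × CC m N) :=
  Algebra.adjoin ℂ {x | ∃ i, k < i ∧ i + 1 < m ∧ x = EP m N i}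

theorem SK_fst (N : ℕ) (k : ℕ) (hk : k < m) {Y} (hY : Y ∈ SK m N k) : Y.1 ∈ Loc N (⟨k, hk⟩ : Fin m) := by
  unfold SK at hY
  induction hY using Algebra.adjoin_induction with
  | mem x hx =>
    obtain ⟨i, h1, h2, rfl⟩ := hx
    apply KK_loc _ i h2
    · intro h; simp only [Fin.mk.injEq] at h; omega
    · intro h; simp only [Fin.mk.injEq] at h; omega
  | algebraMap r => exact Subalgebra.algebraMap_mem _ r
  | add x y _ _ ihx ihy => exact add_mem ihx ihy
  | mul x y _ _ ihx ihy => exact mul_mem ihx ihy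

theorem SK_snd (N : ℕ) (k : ℕ) {Y} (hY : Y ∈ SK m N k) :
    ∃ Y' : Matrix (Fin m → Fin 2) (Fin m → Fin 2) ℂ, (∀ j : Fin m, (j : ℕ) ≤ k → Y' ∈ Loc 2 j) ∧
      PV m * Y.2.1 = PV m * Y' ∧ PV m * Y' = Y' * PV m := by
  unfold SK at hY
  induction hY using Algebra.adjoin_induction with
  | mem x hx =>
    obtain ⟨i, h1, h2, rfl⟩ := hx
    refine ⟨JV m N i, fun j hj => JV_loc N i j (by omega), ?_, ?_⟩
    · rw [PV_JV]
      exact PV_JJ N i
    · rw [PV_JV, JV_PV]
  | algebraMap r =>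
    refine ⟨algebraMap ℂ _ r, fun j _ => Subalgebra.algebraMap_mem _ r, rfl, ?_⟩
    exact (Algebra.commutes r (PV m)).symm
  | add x y _ _ ihx ihy =>
    obtain ⟨X', h1, h2, h3⟩ := ihx
    obtain ⟨Y', h4, h5, h6⟩ := ihy
    refine ⟨X' + Y', fun j hj => add_mem (h1 j hj) (h4 j hj), ?_, ?_⟩
    · rw [mul_add, ← h2, ← h5, ← mul_add]; rfl
    · rw [mul_add, add_mul, h3, h6]
  | mul x y _ _ ihx ihy =>
    obtain ⟨X', h1, h2, h3⟩ := ihx
    obtain ⟨Y', h4, h5, h6⟩ := ihy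
    refine ⟨X' * Y', fun j hj => mul_mem (h1 j hj) (h4 j hj), ?_, ?_⟩
    · calc PV m * (x * y).2.1 = (PV m * x.2.1) * y.2.1 := by rw [mul_assoc]; rfl
        _ = X' * (PV m * y.2.1) := by rw [h2, h3, mul_assoc]
        _ = (X' * PV m) * Y' := by rw [h5, mul_assoc]
        _ = _ := by rw [← h3, mul_assoc]
    · rw [← mul_assoc, h3, mul_assoc, h6, mul_assoc]

theorem markovE (N : ℕ) (hN : 3 ≤ N) (k : ℕ) (hk : k + 1 < m) {Y} (hY : Y ∈ SK m N k) (b : Bool) :
    (N : ℂ) * TF m N b (Y * EP m N k) = TF m N b Y := by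
  cases b
  · rw [TF_false, TF_false]
    obtain ⟨Y', h1, h2, h3⟩ := SK_snd N k hY
    have h4 : (Y * EP m N k).2.1 = Y.2.1 * JJ m N k := rfl
    rw [h4, ← tauL_PV N (Y.2.1 * JJ m N k), ← mul_assoc, h2, mul_assoc, tauL_PV, markovP N hN k hk Y' h1,
      ← tauL_PV N Y', ← h2, tauL_PV]
  · rw [TF_true, TF_true]
    exact markov2 (by omega) k hk Y.1 (SK_fst N k _ hY)

end tr

/-- the value of the functional on words -/
theorem tau_lam {m : ℕ} (hTL : ∀ N : ℕ, 3 ≤ N → IsTL m (N : ℂ) (JJ m N)) (N : ℕ) (hN : 3 ≤ N) (L : List ℕ)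
    (hL : ∀ i ∈ L, i + 1 < m) : tau m N (WP (JJ m N) L) = (N : ℂ) ^ (lam m L) := by
  obtain ⟨s, z, h1, h2, h3, h4, h5, h6⟩ := annularF (K := ℂ) (ι := {N : ℕ // 3 ≤ N} × Bool)
    (R := fun j => Matrix (Fin m → Fin j.1.1) (Fin m → Fin j.1.1) ℂ × CC m j.1.1) (M := m)
    (d := fun j => (j.1.1 : ℂ)) (e := fun j => EP m j.1.1) (A := fun j => AA j.1.1 j.2)
    (fun j => AA_ne _ j.1.2 _) (fun j => AA_d _ j.1.2 _) (fun j => isTL_EP j.1.1 (hTL j.1.1 j.1.2))
    (fun j => TF m j.1.1 j.2)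
    (by
      rintro ⟨N, b⟩ x y
      cases b
      · simp only
        rw [TF_false, TF_false]
        exact tauL_cyc N.1 x.2 y.2
      · simp only
        rw [TF_true, TF_true]
        exact Matrix.trace_mul_comm x.1 y.1)
    (fun j k => SK m j.1.1 k)
    (fun j k i hki hi => Algebra.subset_adjoin ⟨i, hki, hi, rfl⟩)
    (fun j k Y hk hY => markovE j.1.1 j.1.2 k hk hY j.2)
    m 0 (by omega) L (fun i hi => ⟨Nat.zero_le _, hL i hi⟩)
  have g1 := h6 (⟨N, hN⟩, true) 1 0 le_rfl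
  have g2 := h6 (⟨N, hN⟩, false) 1 0 le_rfl
  simp only [pow_zero, mul_one, mul_zero, zero_mul, one_mul, pow_one, TF_true, TF_false] at g1 g2
  rw [WP_EP_fst, trace_lam L hL (by omega)] at g1
  rw [WP_EP_snd] at g2
  have e1 : Matrix.trace (1 : Matrix (Fin m → Fin N) (Fin m → Fin N) ℂ × CC m N).1 = (N : ℂ) ^ m := by
    show Matrix.trace (1 : Matrix (Fin m → Fin N) (Fin m → Fin N) ℂ) = _
    rw [Matrix.trace_one]
    simp
  have e2 : tauL m N ((1 : Matrix (Fin m → Fin N) (Fin m → Fin N) ℂ × CC m N).2 : Matrix _ _ ℂ) = (N : ℂ) ^ m :=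
    tauL_one N
  rw [e1] at g1
  rw [e2] at g2
  rw [tau_eq]
  have hN0 : (N : ℂ) ≠ 0 := Nat.cast_ne_zero.2 (by omega)
  exact mul_left_cancel₀ (pow_ne_zero (m - s) hN0) (g2.trans g1.symm)

end Pool.Agent.N130.TC
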